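import Mathlib
import Pool.Agent.TH639.SL.Twist
import Pool.Agent.V11109.TWI.Basic
import Pool.Agent.Y854.GM.Sets

/-!
# Moments of the orders of 2-Selmer groups along sparse sequences

`SN A B` is the order of the 2-Selmer group of `y² = x (x - A) (x - B)`. For pairs of polynomials
`A`, `B` and `k ≥ 0` a bound for the mean value of `SN (A(t)) (B(t)) ^ k` over all `t` gives the same bound along
`⌊α n ^ c⌋`, for all `α > 0` outside a set of Hausdorff dimension smaller than one which does not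
depend on `A`, `B` and `k`.
-/

set_option autoImplicit false

namespace Pool.Agent.V11109.MOM

open Finset Polynomial

open Pool.Agent.W307.SE (SN SN_nonneg Sel)
open Pool.Agent.W262.RK (NL)

/-- `A ^ ω(n) ≤ C n ^ κ` -/
lemma pow_omega (A κ : ℝ) (hA : 1 ≤ A) (hκ : 0 < κ) : ∃ C : ℝ, 0 < C ∧ ∀ n : ℕ, n ≠ 0 →
    A ^ n.primeFactors.card ≤ C * (n : ℝ) ^ κ := by
  classical
  obtain ⟨Z, hZ⟩ : ∃ Z : ℕ, A ≤ (Z : ℝ) ^ κ := by
    have h := (tendsto_rpow_atTop hκ).comp (tendsto_natCast_atTop_atTop (R := ℝ))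
    obtain ⟨Z, hZ⟩ := (h.eventually (Filter.eventually_ge_atTop A)).exists
    exact ⟨Z, hZ⟩
  have hA0 : 0 < A := lt_of_lt_of_le one_pos hA
  refine ⟨A ^ Z, by positivity, fun n hn => ?_⟩
  have h1 : A ^ n.primeFactors.card ≤
      ∏ p ∈ n.primeFactors, ((if p < Z then A else 1) * (p : ℝ) ^ κ) := by
    rw [← Finset.prod_const]
    refine Finset.prod_le_prod (fun _ _ => hA0.le) fun p hp => ?_
    have hp2 := (Nat.prime_of_mem_primeFactors hp).two_le
    have h1p : (1 : ℝ) ≤ (p : ℝ) ^ κ :=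
      Real.one_le_rpow (by exact_mod_cast (by omega : 1 ≤ p)) hκ.le
    split_ifs with h
    · nlinarith
    · rw [one_mul]
      exact hZ.trans (Real.rpow_le_rpow (Nat.cast_nonneg _)
        (by exact_mod_cast (not_lt.1 h)) hκ.le)
  refine h1.trans ?_
  rw [Finset.prod_mul_distrib]
  have h2 : ∏ p ∈ n.primeFactors, (if p < Z then A else 1) ≤ A ^ Z := by
    rw [← Finset.prod_filter, Finset.prod_const]
    refine pow_le_pow_right₀ hA ?_
    calc _ ≤ (Finset.range Z).card := Finset.card_le_card (fun p hp => by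
          rw [Finset.mem_filter] at hp
          exact Finset.mem_range.2 hp.2)
      _ = Z := Finset.card_range Z
  have h3 : ∏ p ∈ n.primeFactors, (p : ℝ) ^ κ ≤ (n : ℝ) ^ κ := by
    rw [Real.finsetProd_rpow _ _ (fun p _ => Nat.cast_nonneg _)]
    refine Real.rpow_le_rpow (Finset.prod_nonneg fun p _ => Nat.cast_nonneg _) ?_ hκ.le
    rw [← Nat.cast_prod]
    exact_mod_cast Nat.le_of_dvd (Nat.pos_of_ne_zero hn) (Nat.prod_primeFactors_dvd n)
  exact mul_le_mul h2 h3 (Finset.prod_nonneg fun p _ => Real.rpow_nonneg (Nat.cast_nonneg _) _)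
    (by positivity)

open Classical in
lemma NL_one (L : ℕ → Bool → Bool → Bool → Bool → Prop) : NL 1 L ≤ 1 := by
  unfold NL
  refine (Finset.card_filter_le _ _).trans ?_
  simp

/-- the 2-Selmer group is small -/
lemma SN_le {A B : ℤ} (hA : A ≠ 0) (hB : B ≠ 0) (hAB : A ≠ B) :
    SN A B ≤ 4 ^ ((2 * A * B * (A - B)).natAbs.primeFactors.card + 2) := by
  have h := (Pool.Agent.W410.FK.seld 1 (fun _ _ _ _ _ => True) A B hA hB hAB odd_one
    squarefree_one (fun p hp h1 => absurd (Nat.dvd_one.1 h1) hp.one_lt.ne')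
    (fun p hp h1 => absurd (Nat.dvd_one.1 h1) hp.out.one_lt.ne')).2
  have h1 : NL 1 (fun _ _ _ _ _ => True) ≤ 1 := NL_one _
  set F := (2 * A * B * (A - B)).natAbs.primeFactors with hF
  have h2 : (F.filter (fun q => ¬ q ∣ 1)).card ≤ F.card := Finset.card_filter_le _ _
  have h3 : (Sel A B).ncard ≤ 4 ^ (F.card + 2) := by
    refine h.trans ?_
    calc _ ≤ 4 ^ ((F.filter (fun q => ¬ q ∣ 1)).card + 2) * 1 := Nat.mul_le_mul_left _ h1
      _ ≤ _ := by
        rw [mul_one]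
        exact Nat.pow_le_pow_right (by norm_num) (by omega)
  unfold SN
  exact_mod_cast h3

/-- polynomials grow polynomially -/
lemma poly_bound (P : ℤ[X]) : ∃ K : ℝ, 1 ≤ K ∧ ∀ t : ℕ, 1 ≤ t →
    (((P.eval (t : ℤ)).natAbs : ℕ) : ℝ) ≤ K * (t : ℝ) ^ P.natDegree := by
  refine ⟨1 + ∑ i ∈ range (P.natDegree + 1), |(P.coeff i : ℝ)|, ?_, fun t ht => ?_⟩
  · have : 0 ≤ ∑ i ∈ range (P.natDegree + 1), |(P.coeff i : ℝ)| :=
      Finset.sum_nonneg fun _ _ => abs_nonneg _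
    linarith
  · have ht1 : (1 : ℝ) ≤ t := by exact_mod_cast ht
    have e : (((P.eval (t : ℤ)).natAbs : ℕ) : ℝ) = |((P.eval (t : ℤ) : ℤ) : ℝ)| := by
      rw [Nat.cast_natAbs, Int.cast_abs]
    rw [e, Polynomial.eval_eq_sum_range]
    push_cast
    calc |∑ i ∈ range (P.natDegree + 1), (P.coeff i : ℝ) * (t : ℝ) ^ i|
        ≤ ∑ i ∈ range (P.natDegree + 1), |(P.coeff i : ℝ) * (t : ℝ) ^ i| :=
          Finset.abs_sum_le_sum_abs _ _
      _ ≤ ∑ i ∈ range (P.natDegree + 1), |(P.coeff i : ℝ)| * (t : ℝ) ^ P.natDegree := by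
          refine Finset.sum_le_sum fun i hi => ?_
          rw [abs_mul, abs_of_nonneg (by positivity : (0 : ℝ) ≤ (t : ℝ) ^ i)]
          refine mul_le_mul_of_nonneg_left ?_ (abs_nonneg _)
          exact pow_le_pow_right₀ ht1 (by
            have := Finset.mem_range.1 hi
            omega)
      _ = (∑ i ∈ range (P.natDegree + 1), |(P.coeff i : ℝ)|) * (t : ℝ) ^ P.natDegree := by
          rw [Finset.sum_mul]
      _ ≤ _ := by
          refine mul_le_mul_of_nonneg_right (by linarith) (by positivity)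

/-- the values are those of a curve -/
def Ok (A B : ℤ[X]) (t : ℤ) : Prop := A.eval t ≠ 0 ∧ B.eval t ≠ 0 ∧ A.eval t ≠ B.eval t

/-- the growth of the 2-Selmer groups in a pencil -/
lemma grow (A B : ℤ[X]) (k : ℕ) (κ : ℝ) (hκ : 0 < κ) : ∃ C : ℝ, 0 < C ∧ ∀ t : ℕ, 1 ≤ t →
    Ok A B t → SN (A.eval (t : ℤ)) (B.eval (t : ℤ)) ^ k ≤ C * (t : ℝ) ^ κ := by
  set P : ℤ[X] := 2 * A * B * (A - B) with hP
  obtain ⟨K, hK1, hK⟩ := poly_bound P
  have hd : (0 : ℝ) < (P.natDegree : ℝ) + 1 := by positivity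
  set κ' : ℝ := κ / ((P.natDegree : ℝ) + 1) with hκ'
  have hκ'0 : 0 < κ' := div_pos hκ hd
  obtain ⟨C, hC0, hC⟩ := pow_omega ((4 : ℝ) ^ k) κ' (one_le_pow₀ (by norm_num)) hκ'0
  refine ⟨(16 : ℝ) ^ k * C * K ^ κ', by positivity, fun t ht hok => ?_⟩
  obtain ⟨h1, h2, h3⟩ := hok
  have ht1 : (1 : ℝ) ≤ t := by exact_mod_cast ht
  have e : P.eval (t : ℤ) = 2 * A.eval (t : ℤ) * B.eval (t : ℤ) * (A.eval (t : ℤ) - B.eval (t : ℤ)) := by
    rw [hP]
    simp
  have hne : (P.eval (t : ℤ)).natAbs ≠ 0 := by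
    rw [e, Int.natAbs_ne_zero]
    exact mul_ne_zero (mul_ne_zero (mul_ne_zero two_ne_zero h1) h2) (sub_ne_zero.2 h3)
  have h4 := SN_le h1 h2 h3
  rw [← e] at h4
  have h5 := hC _ hne
  have h6 : (((P.eval (t : ℤ)).natAbs : ℕ) : ℝ) ^ κ' ≤ K ^ κ' * (t : ℝ) ^ κ := by
    calc (((P.eval (t : ℤ)).natAbs : ℕ) : ℝ) ^ κ' ≤ (K * (t : ℝ) ^ P.natDegree) ^ κ' :=
          Real.rpow_le_rpow (Nat.cast_nonneg _) (hK t ht) hκ'0.le
      _ = K ^ κ' * ((t : ℝ) ^ P.natDegree) ^ κ' :=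
          Real.mul_rpow (by linarith) (by positivity)
      _ = K ^ κ' * (t : ℝ) ^ (P.natDegree * κ') := by
          rw [← Real.rpow_natCast, ← Real.rpow_mul (by linarith)]
      _ ≤ K ^ κ' * (t : ℝ) ^ κ := by
          refine mul_le_mul_of_nonneg_left ?_ (by positivity)
          refine Real.rpow_le_rpow_of_exponent_le ht1 ?_
          rw [hκ', mul_div_assoc', div_le_iff₀ hd]
          nlinarith
  calc SN (A.eval (t : ℤ)) (B.eval (t : ℤ)) ^ k
      ≤ ((4 : ℝ) ^ ((P.eval (t : ℤ)).natAbs.primeFactors.card + 2)) ^ k :=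
        pow_le_pow_left₀ (SN_nonneg _ _) h4 k
    _ = (16 : ℝ) ^ k * ((4 : ℝ) ^ k) ^ (P.eval (t : ℤ)).natAbs.primeFactors.card := by
        rw [pow_add, mul_pow, ← pow_mul, mul_comm (P.eval (t : ℤ)).natAbs.primeFactors.card k, pow_mul,
          show (4 : ℝ) ^ 2 = 16 by norm_num]
        ring
    _ ≤ (16 : ℝ) ^ k * (C * (K ^ κ' * (t : ℝ) ^ κ)) := by
        refine mul_le_mul_of_nonneg_left (h5.trans ?_) (by positivity)
        exact mul_le_mul_of_nonneg_left h6 hC0.le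
    _ = _ := by ring

open Classical in
/-- the `k`-th power of the order of the 2-Selmer group -/
noncomputable def G (A B : ℤ[X]) (k : ℕ) (t : ℕ) : ℝ :=
  if Ok A B t then SN (A.eval (t : ℤ)) (B.eval (t : ℤ)) ^ k else 0

lemma G_nonneg (A B : ℤ[X]) (k t : ℕ) : 0 ≤ G A B k t := by
  unfold G
  split_ifs
  · exact pow_nonneg (SN_nonneg _ _) _
  · exact le_refl _

/-- **the law along the sequence** -/
theorem law (c : ℝ) (hc : 1 < c) : ∃ E : Set ℝ, dimH E < 1 ∧ ∀ α : ℝ, 0 < α → α ∉ E →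
    ∀ (A B : ℤ[X]) (k : ℕ) (δ : ℝ),
      (∀ X : ℕ, ∑ t ∈ Ioc 0 X, G A B k t ≤ δ * X) → ∀ ε : ℝ, 0 < ε →
      ∃ N1 : ℕ, ∀ N : ℕ, N1 ≤ N → ∑ n ∈ Icc 1 N, G A B k ⌊α * (n : ℝ) ^ c⌋₊ ≤ (δ + ε) * N := by
  classical
  have hcp := Pool.Agent.V11109.TWI.countable_poly
  obtain ⟨κ, hκ, hκ1, h⟩ := Pool.Agent.Y854.GM.mean2 c hc
  obtain ⟨E, hE, hlaw⟩ := h (fun v : ℤ[X] × ℤ[X] × ℕ => G v.1 v.2.1 v.2.2)
  refine ⟨E, hE, fun α hα hαE A B k δ hsum ε hε => ?_⟩
  obtain ⟨C, hC0, hC⟩ := grow A B k κ hκ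
  obtain ⟨N0, hN0⟩ := hlaw α hα hαE ⟨A, B, k⟩ ⟨C, hC0, fun m hm => by
    rw [abs_of_nonneg (G_nonneg _ _ _ _)]
    show G A B k m ≤ _
    unfold G
    split_ifs with hok
    · exact hC m hm hok
    · positivity⟩
  exact Pool.Agent.Y854.GM.seq_upper hα hc hκ (G A B k) (C := 0)
    (fun X => by rw [add_zero]; exact hsum X) N0 hN0 ε hε

end Pool.Agent.V11109.MOM
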