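import Mathlib
import Pool.Agent.V11109.TWI.Basic
import Pool.Agent.Y854.GM.Sets

/-!
# Sets of integers and sparse sequences: auxiliary statements
-/

set_option autoImplicit false

namespace Pool.Agent.V11109.MOM

open Finset

open Classical in
/-- the number of the `j ≤ N` with the property `Q` -/
noncomputable def cnt (N : ℕ) (Q : ℕ → Prop) : ℕ := ((Icc 1 N).filter Q).card

open Classical in
lemma mem_cnt {N : ℕ} {Q : ℕ → Prop} {j : ℕ} : j ∈ (Icc 1 N).filter Q ↔ j ∈ Icc 1 N ∧ Q j :=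
  Finset.mem_filter

open Classical in
lemma cnt_mono {N : ℕ} {Q R : ℕ → Prop} (h : ∀ j, 1 ≤ j → Q j → R j) : cnt N Q ≤ cnt N R := by
  unfold cnt
  refine Finset.card_le_card fun j hj => ?_
  rw [Finset.mem_filter] at hj ⊢
  exact ⟨hj.1, h j (Finset.mem_Icc.1 hj.1).1 hj.2⟩

open Classical in
lemma cnt_or {N : ℕ} {Q R : ℕ → Prop} : cnt N (fun j => Q j ∨ R j) ≤ cnt N Q + cnt N R := by
  unfold cnt
  refine (Finset.card_le_card fun j hj => ?_).trans (Finset.card_union_le _ _)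
  rw [Finset.mem_union, mem_cnt, mem_cnt]
  obtain ⟨h1, h2⟩ := mem_cnt.1 hj
  exact h2.imp (fun h => ⟨h1, h⟩) fun h => ⟨h1, h⟩

open Classical in
/-- natural numbers and integers -/
lemma card_nat_int (S : Set ℤ) (X : ℕ) : ((Ioc 0 X).filter (fun t : ℕ => (t : ℤ) ∈ S)).card ≤
    ((Ioc (0 : ℤ) (0 + (X : ℤ))).filter (fun t => t ∈ S)).card := by
  refine Finset.card_le_card_of_injOn (fun t : ℕ => (t : ℤ)) ?_ ?_
  · intro t ht
    rw [Finset.mem_coe, Finset.mem_filter, Finset.mem_Ioc] at ht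
    rw [Finset.mem_coe, Finset.mem_filter, Finset.mem_Ioc]
    refine ⟨⟨?_, ?_⟩, ht.2⟩
    · show (0 : ℤ) < (t : ℤ)
      exact_mod_cast ht.1.1
    · show (t : ℤ) ≤ 0 + (X : ℤ)
      rw [zero_add]
      exact_mod_cast ht.1.2
  · intro x _ y _ hxy
    have h : (x : ℤ) = (y : ℤ) := hxy
    exact_mod_cast h

open Classical in
/-- **Upper densities of sets of integers along the sequence.** -/
theorem int_sets (c : ℝ) (hc : 1 < c) {ι : Type} [Countable ι] (P : ι → Set ℤ) :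
    ∃ E : Set ℝ, dimH E < 1 ∧ ∀ α : ℝ, 0 < α → α ∉ E → ∀ k : ι, ∀ δ ε : ℝ, 0 < ε →
      (∃ X0 : ℕ, ∀ X : ℕ, X0 ≤ X →
        (((Ioc (0 : ℤ) (0 + (X : ℤ))).filter (fun t => t ∈ P k)).card : ℝ) ≤ δ * X) →
      ∃ N0 : ℕ, ∀ N : ℕ, N0 ≤ N →
        (cnt N (fun n : ℕ => ((⌊α * (n : ℝ) ^ c⌋₊ : ℕ) : ℤ) ∈ P k) : ℝ) ≤ (δ + ε) * N := by
  obtain ⟨E, hE, h⟩ := Pool.Agent.Y854.GM.sets c hc (fun k : ι => {t : ℕ | (t : ℤ) ∈ P k})
  refine ⟨E, hE, fun α hα hαE k δ ε hε hX => ?_⟩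
  obtain ⟨X0, hX0⟩ := hX
  obtain ⟨N0, hN0⟩ := (h α hα hαE k δ ε hε).1 ⟨X0, fun X hX => by
    refine le_trans ?_ (hX0 X hX)
    refine le_trans (le_of_eq ?_) (Nat.cast_le.2 (card_nat_int (P k) X))
    congr 2⟩
  refine ⟨N0, fun N hN => ?_⟩
  unfold cnt
  refine le_trans (le_of_eq ?_) (hN0 N hN)
  congr 2

end Pool.Agent.V11109.MOM
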